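import Pool.Agent.helper11.RPQ.SpecG
import Pool.Agent.helper62.RS.All
import Pool.Agent.helper62.EN.All

/-! Row LAT of project RPQ (MP_07c750_an). -/

set_option autoImplicit false

open scoped MatrixGroups ContDiff Topology UpperHalfPlane ComplexConjugate
open UpperHalfPlane MeasureTheory Filter Set

namespace Pool.Agent.RPQ

open Pool.Agent.RS
open Pool.Agent.MS (BA BB st pf gk Dk amk)

theorem LAT_ent (a b c d : ℝ) (g : SL(2, ℝ)) (h00 : g.1 0 0 = a) (h01 : g.1 0 1 = b) (h10 : g.1 1 0 = c) (h11 : g.1 1 1 = d)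
    (g' : SL(2, ℝ)) (h00' : g'.1 0 0 = a) (h01' : g'.1 0 1 = b) (h10' : g'.1 1 0 = c) (h11' : g'.1 1 1 = d) : g = g' := by
  apply Subtype.ext
  ext i j
  fin_cases i <;> fin_cases j
  · exact h00.trans h00'.symm
  · exact h01.trans h01'.symm
  · exact h10.trans h10'.symm
  · exact h11.trans h11'.symm

theorem LAT_mul (g h : SL(2, ℝ)) (i j : Fin 2) : (g * h).1 i j = g.1 i 0 * h.1 0 j + g.1 i 1 * h.1 1 j := by
  rw [Matrix.SpecialLinearGroup.coe_mul, Matrix.mul_apply, Fin.sum_univ_two]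

theorem LAT_det (g : SL(2, ℝ)) : g.1 0 0 * g.1 1 1 - g.1 0 1 * g.1 1 0 = 1 := by
  have h := g.2
  rw [Matrix.det_fin_two] at h
  exact h

/-- decomposition of a matrix with positive first entry -/
theorem LAT_dec (g : SL(2, ℝ)) (ha : 0 < g.1 0 0) :
    g = lM (g.1 1 0 / g.1 0 0) * aM (2 * Real.log (g.1 0 0)) * nM (g.1 0 1 / g.1 0 0) := by
  have hd := LAT_det g
  obtain ⟨a, haa⟩ : ∃ a, a = g.1 0 0 := ⟨_, rfl⟩
  obtain ⟨b, hb⟩ : ∃ b, b = g.1 0 1 := ⟨_, rfl⟩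
  obtain ⟨c, hc⟩ : ∃ c, c = g.1 1 0 := ⟨_, rfl⟩
  obtain ⟨d, hdd⟩ : ∃ d, d = g.1 1 1 := ⟨_, rfl⟩
  rw [← haa] at ha
  rw [← haa, ← hb, ← hc, ← hdd] at hd
  have e1 : Real.exp (2 * Real.log a / 2) = a := by
    rw [mul_div_cancel_left₀ _ two_ne_zero, Real.exp_log ha]
  have e2 : Real.exp (-(2 * Real.log a / 2)) = a⁻¹ := by
    rw [Real.exp_neg, e1]
  rw [← haa, ← hb, ← hc]
  refine LAT_ent a b c d g haa.symm hb.symm hc.symm hdd.symm _ ?_ ?_ ?_ ?_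
  · rw [LAT_mul, LAT_mul, LAT_mul]
    simp only [lM, aM, nM, Matrix.of_apply, Matrix.cons_val_zero, Matrix.cons_val_one, Matrix.cons_val', Matrix.cons_val_fin_one]
    rw [e1, e2]
    ring
  · rw [LAT_mul, LAT_mul, LAT_mul]
    simp only [lM, aM, nM, Matrix.of_apply, Matrix.cons_val_zero, Matrix.cons_val_one, Matrix.cons_val', Matrix.cons_val_fin_one]
    rw [e1, e2]
    field_simp
    ring
  · rw [LAT_mul, LAT_mul, LAT_mul]
    simp only [lM, aM, nM, Matrix.of_apply, Matrix.cons_val_zero, Matrix.cons_val_one, Matrix.cons_val', Matrix.cons_val_fin_one]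
    rw [e1, e2]
    field_simp
    ring
  · rw [LAT_mul, LAT_mul, LAT_mul]
    simp only [lM, aM, nM, Matrix.of_apply, Matrix.cons_val_zero, Matrix.cons_val_one, Matrix.cons_val', Matrix.cons_val_fin_one]
    rw [e1, e2]
    field_simp
    linarith

theorem LAT_ctr (θ : ℝ) (hθ : θ = 0 ∨ θ = Real.pi) (g : SL(2, ℝ)) : kM θ * g = g * kM θ := by
  have h0 : Real.sin θ = 0 := by
    rcases hθ with h | h
    · rw [h, Real.sin_zero]
    · rw [h, Real.sin_pi]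
  refine LAT_ent _ _ _ _ _ rfl rfl rfl rfl _ ?_ ?_ ?_ ?_ <;>
  · rw [LAT_mul, LAT_mul]
    simp only [kM, Matrix.of_apply, Matrix.cons_val_zero, Matrix.cons_val_one, Matrix.cons_val', Matrix.cons_val_fin_one]
    rw [h0]
    ring

/-- the compact set -/
def LAT_K0 (A : ℝ) : Set SL(2, ℝ) := {k | ∃ a Y θ : ℝ, |a| ≤ A ∧ |Y| ≤ A ∧ θ ∈ Icc 0 Real.pi ∧ k = aM a * nM Y * kM θ}

/-- the compact set with the stable directions -/
def LAT_K (A : ℝ) : Set SL(2, ℝ) := {k | ∃ v : ℝ, ∃ k' ∈ LAT_K0 A, |v| ≤ 1 ∧ k = lM v * k'}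

/-- the long thin set -/
def LAT_T (A t U : ℝ) : Set SL(2, ℝ) := {q | ∃ u : ℝ, ∃ k ∈ LAT_K0 A, |u| ≤ U ∧ q = lM u * aM t * k}

theorem LAT_cpt (A : ℝ) : IsCompact (LAT_K A) := by
  obtain ⟨-, -, -, haA, hnA, hlA, hkA, -⟩ := A_GLC
  have h1 : IsCompact ((fun p : ℝ × ℝ × ℝ × ℝ => lM p.1 * (aM p.2.1 * nM p.2.2.1 * kM p.2.2.2)) ''
      (Icc (-1) 1 ×ˢ Icc (-A) A ×ˢ Icc (-A) A ×ˢ Icc 0 Real.pi)) := by
    refine IsCompact.image ?_ ?_
    · exact isCompact_Icc.prod (isCompact_Icc.prod (isCompact_Icc.prod isCompact_Icc))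
    · exact (hlA.comp continuous_fst).mul (((haA.comp (continuous_fst.comp continuous_snd)).mul
        (hnA.comp (continuous_fst.comp (continuous_snd.comp continuous_snd)))).mul
        (hkA.comp (continuous_snd.comp (continuous_snd.comp continuous_snd))))
  have h2 : LAT_K A = (fun p : ℝ × ℝ × ℝ × ℝ => lM p.1 * (aM p.2.1 * nM p.2.2.1 * kM p.2.2.2)) ''
      (Icc (-1) 1 ×ˢ Icc (-A) A ×ˢ Icc (-A) A ×ˢ Icc 0 Real.pi) := by
    ext k
    constructor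
    · rintro ⟨v, k', ⟨a, Y, θ, ha, hY, hθ, rfl⟩, hv, rfl⟩
      exact ⟨(v, a, Y, θ), ⟨abs_le.1 hv, abs_le.1 ha, abs_le.1 hY, hθ⟩, rfl⟩
    · rintro ⟨⟨v, a, Y, θ⟩, ⟨hv, ha, hY, hθ⟩, rfl⟩
      exact ⟨v, _, ⟨a, Y, θ, abs_le.2 ha, abs_le.2 hY, hθ, rfl⟩, abs_le.2 hv, rfl⟩
  rw [h2]
  exact h1

theorem LAT_vol (A : ℝ) : ∀ t U : ℝ, 0 ≤ U → mG (LAT_T A t U) ≤ ENNReal.ofReal (Real.exp t * U + 2) * mG (LAT_K A) := by
  intro t U hU
  have hlc : LocallyCompactSpace SL(2, ℝ) := A_GLC.1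
  have hsc : SecondCountableTopology SL(2, ℝ) := A_GLC.2.1
  obtain ⟨-, -, -, -, -, -, -, -, -, -, -, -, hls, -, -, -, -, -, hla, -⟩ := A_GLC
  have : mG.IsMulLeftInvariant := ⟨fun g => A_GLI g⟩
  obtain ⟨J, hJ⟩ : ∃ J : ℕ, J = ⌊Real.exp t * U / 2 + 1 / 2⌋₊ := ⟨_, rfl⟩
  have hpos : 0 ≤ Real.exp t * U / 2 + 1 / 2 := by positivity
  have hJ1 : (J : ℝ) ≤ Real.exp t * U / 2 + 1 / 2 := by
    rw [hJ]
    exact Nat.floor_le hpos
  have hJ2 : Real.exp t * U / 2 + 1 / 2 < J + 1 := by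
    rw [hJ]
    exact Nat.lt_floor_add_one _
  have hsub : LAT_T A t U ⊆ ⋃ j ∈ Finset.Icc (-(J : ℤ)) J,
      (fun q : SL(2, ℝ) => (lM (2 * j * Real.exp (-t)) * aM t)⁻¹ * q) ⁻¹' LAT_K A := by
    rintro q ⟨u, k, hk, hu, rfl⟩
    obtain ⟨j, hj⟩ : ∃ j : ℤ, j = round (u * Real.exp t / 2) := ⟨_, rfl⟩
    have h1 : |u * Real.exp t / 2 - j| ≤ 1 / 2 := by
      rw [hj]
      exact abs_sub_round _
    have h2 : |u * Real.exp t / 2| ≤ Real.exp t * U / 2 := by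
      rw [abs_div, abs_mul, abs_of_pos (Real.exp_pos t), abs_of_pos (two_pos : (0 : ℝ) < 2)]
      have := mul_le_mul_of_nonneg_right hu (Real.exp_pos t).le
      linarith
    have h3 : |(j : ℝ)| < J + 1 := by
      have h4 := abs_le.1 h1
      have h5 := abs_le.1 h2
      rw [abs_lt]
      constructor <;> linarith [h4.1, h4.2, h5.1, h5.2]
    have h6 := abs_lt.1 h3
    have h7 : -((J : ℤ) + 1) < j := by
      have := h6.1
      exact_mod_cast this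
    have h8 : j < (J : ℤ) + 1 := by
      have := h6.2
      exact_mod_cast this
    refine mem_iUnion₂.2 ⟨j, Finset.mem_Icc.2 ⟨by omega, by omega⟩, ?_⟩
    refine ⟨Real.exp t * (u - 2 * j * Real.exp (-t)), k, hk, ?_, ?_⟩
    · have e1 : Real.exp t * (u - 2 * j * Real.exp (-t)) = 2 * (u * Real.exp t / 2 - j) := by
        have : Real.exp t * Real.exp (-t) = 1 := by rw [← Real.exp_add, add_neg_cancel, Real.exp_zero]
        linear_combination (-2 * (j : ℝ)) * this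
      rw [e1, abs_mul, abs_of_pos (two_pos : (0 : ℝ) < 2)]
      linarith
    · show (lM (2 * j * Real.exp (-t)) * aM t)⁻¹ * (lM u * aM t * k) = lM (Real.exp t * (u - 2 * j * Real.exp (-t))) * k
      rw [inv_mul_eq_iff_eq_mul, ← mul_assoc, mul_assoc (lM (2 * j * Real.exp (-t))), ← hla, ← mul_assoc, ← hls]
      congr 3
      ring
  refine (measure_mono hsub).trans ?_
  refine (measure_biUnion_finset_le _ _).trans ?_
  have h9 : ∀ j ∈ Finset.Icc (-(J : ℤ)) J, mG ((fun q : SL(2, ℝ) => (lM (2 * j * Real.exp (-t)) * aM t)⁻¹ * q) ⁻¹' LAT_K A) = mG (LAT_K A) :=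
    fun j _ => measure_preimage_mul mG _ _
  rw [Finset.sum_congr rfl h9, Finset.sum_const, nsmul_eq_mul, Int.card_Icc]
  refine mul_le_mul' ?_ le_rfl
  have h10 : ((J : ℤ) + 1 - -(J : ℤ)).toNat = 2 * J + 1 := by omega
  rw [h10]
  have h11 : (((2 * J + 1 : ℕ) : ℝ)) ≤ Real.exp t * U + 2 := by
    push_cast
    linarith
  calc (((2 * J + 1 : ℕ)) : ENNReal) = ENNReal.ofReal ((2 * J + 1 : ℕ) : ℝ) := (ENNReal.ofReal_natCast _).symm
    _ ≤ ENNReal.ofReal (Real.exp t * U + 2) := ENNReal.ofReal_le_ofReal h11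

theorem LAT_nrinv (δ : ℝ) (k : SL(2, ℝ)) (h : EN.nr δ k) : EN.nr δ k⁻¹ := by
  have h00 := h 0 0
  have h01 := h 0 1
  have h10 := h 1 0
  have h11 := h 1 1
  simp only [Matrix.one_apply_eq, Matrix.one_apply_ne (show (0 : Fin 2) ≠ 1 by decide),
    Matrix.one_apply_ne (show (1 : Fin 2) ≠ 0 by decide), sub_zero] at h00 h01 h10 h11
  have e : k⁻¹.1 = !![k.1 1 1, -k.1 0 1; -k.1 1 0, k.1 0 0] := by
    rw [Matrix.SpecialLinearGroup.coe_inv, Matrix.adjugate_fin_two]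
  intro i j
  fin_cases i <;> fin_cases j
  · show |k⁻¹.1 0 0 - (1 : Matrix (Fin 2) (Fin 2) ℝ) 0 0| < δ
    rw [e]
    simpa using h11
  · show |k⁻¹.1 0 1 - (1 : Matrix (Fin 2) (Fin 2) ℝ) 0 1| < δ
    rw [e]
    simpa using h01
  · show |k⁻¹.1 1 0 - (1 : Matrix (Fin 2) (Fin 2) ℝ) 1 0| < δ
    rw [e]
    simpa using h10
  · show |k⁻¹.1 1 1 - (1 : Matrix (Fin 2) (Fin 2) ℝ) 1 1| < δ
    rw [e]
    simpa using h00

theorem LAT_near (C δ X : ℝ) (hC : 1 ≤ C) (hδ : δ * (4 * (1 + C)) ≤ 1) (hX : |X| ≤ C) (k : SL(2, ℝ)) (h : EN.nr δ k) :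
    ∃ v σ Y : ℝ, |v| ≤ 1 ∧ |σ| ≤ 1 ∧ |Y| ≤ 2 * C ∧ nM X * k = lM v * aM σ * nM Y := by
  have h00 := h 0 0
  have h01 := h 0 1
  have h10 := h 1 0
  have h11 := h 1 1
  simp only [Matrix.one_apply_eq, Matrix.one_apply_ne (show (0 : Fin 2) ≠ 1 by decide),
    Matrix.one_apply_ne (show (1 : Fin 2) ≠ 0 by decide), sub_zero] at h00 h01 h10 h11
  have hδ0 : 0 < δ := lt_of_le_of_lt (abs_nonneg _) h01
  have hδ1 : δ ≤ 1 / 8 := by nlinarith
  have hδC : C * δ ≤ 1 / 4 - δ := by nlinarith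
  have e00 : (nM X * k).1 0 0 = k.1 0 0 + X * k.1 1 0 := by
    rw [LAT_mul]
    simp only [nM, Matrix.of_apply, Matrix.cons_val_zero, Matrix.cons_val_one, Matrix.cons_val', Matrix.cons_val_fin_one]
    ring
  have e01 : (nM X * k).1 0 1 = k.1 0 1 + X * k.1 1 1 := by
    rw [LAT_mul]
    simp only [nM, Matrix.of_apply, Matrix.cons_val_zero, Matrix.cons_val_one, Matrix.cons_val', Matrix.cons_val_fin_one]
    ring
  have e10 : (nM X * k).1 1 0 = k.1 1 0 := by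
    rw [LAT_mul]
    simp only [nM, Matrix.of_apply, Matrix.cons_val_zero, Matrix.cons_val_one, Matrix.cons_val', Matrix.cons_val_fin_one]
    ring
  have hX10 : |X * k.1 1 0| ≤ C * δ := by
    rw [abs_mul]
    exact mul_le_mul hX h10.le (abs_nonneg _) (by linarith)
  have ha : |(nM X * k).1 0 0 - 1| ≤ 1 / 4 := by
    rw [e00]
    have h1 := abs_le.1 hX10
    have h2 := abs_lt.1 h00
    rw [abs_le]
    constructor <;> linarith [h1.1, h1.2, h2.1, h2.2]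
  have ha1 := abs_le.1 ha
  have hapos : 0 < (nM X * k).1 0 0 := by linarith [ha1.1]
  have ha34 : 3 / 4 ≤ (nM X * k).1 0 0 := by linarith [ha1.1]
  refine ⟨_, _, _, ?_, ?_, ?_, LAT_dec (nM X * k) hapos⟩
  · rw [abs_div, abs_of_pos hapos, div_le_one hapos, e10]
    linarith
  · rw [abs_mul, abs_of_pos (two_pos : (0 : ℝ) < 2)]
    have h1 : Real.log ((nM X * k).1 0 0) ≤ 1 / 4 := by
      have := Real.log_le_sub_one_of_pos hapos
      linarith [ha1.2]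
    have h2 : -(1 / 2) ≤ Real.log ((nM X * k).1 0 0) := by
      have h3 := Real.log_le_sub_one_of_pos (inv_pos.2 hapos)
      rw [Real.log_inv] at h3
      have h4 : ((nM X * k).1 0 0)⁻¹ ≤ 4 / 3 := by
        rw [inv_le_comm₀ hapos (by norm_num)]
        linarith
      linarith
    have h5 : |Real.log ((nM X * k).1 0 0)| ≤ 1 / 2 := abs_le.2 ⟨h2, by linarith⟩
    linarith
  · rw [abs_div, abs_of_pos hapos, div_le_iff₀ hapos, e01]
    have h1 : |k.1 1 1| ≤ 9 / 8 := by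
      have h2 := abs_lt.1 h11
      rw [abs_le]
      constructor <;> linarith [h2.1, h2.2]
    have h3 : |X * k.1 1 1| ≤ C * (9 / 8) := by
      rw [abs_mul]
      exact mul_le_mul hX h1 (abs_nonneg _) (by linarith)
    have h4 : |k.1 0 1 + X * k.1 1 1| ≤ 1 / 8 + C * (9 / 8) := (abs_add_le _ _).trans (by linarith)
    nlinarith

theorem LAT_in (C η ε R t : ℝ) (hC : 1 ≤ C) (hη : 0 < η) (hR : 1 ≤ R) (δ : ℝ) (hδ : δ * (4 * (1 + C)) ≤ 1) (q k : SL(2, ℝ)) (hk : EN.nr δ k)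
    (hq : q ∈ SN C η ε R t) : q * aM (-(Real.log R / 4)) * k ∈ LAT_T (2 * C + 1) (t - Real.log R / 4)
      (C * R ^ (-(3 / 4) + ε) + Real.exp C * Real.exp (-(t - Real.log R / 4))) := by
  obtain ⟨-, -, -, -, -, -, -, -, -, -, haa, -, hls, -, -, -, -, hna, hla, -⟩ := A_GLC
  obtain ⟨u, s, x, θ, hθ, hu, hs, hx, rfl⟩ := hq
  have hRp : 0 < R := by linarith
  have hX : |Real.exp (Real.log R / 4) * x| ≤ C := by
    rw [abs_mul, abs_of_pos (Real.exp_pos _)]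
    have h1 : Real.exp (Real.log R / 4) = R ^ (1 / 4 : ℝ) := by
      rw [Real.rpow_def_of_pos hRp]
      congr 1
      ring
    have h2 : R ^ (1 / 4 : ℝ) * R ^ (-(1 / 4) : ℝ) = 1 := by
      rw [← Real.rpow_add hRp, add_neg_cancel, Real.rpow_zero]
    rw [h1]
    have h3 := mul_le_mul_of_nonneg_left hx (Real.rpow_nonneg hRp.le (1 / 4 : ℝ))
    calc R ^ (1 / 4 : ℝ) * |x| ≤ R ^ (1 / 4 : ℝ) * (C * R ^ (-(1 / 4) : ℝ)) := h3
      _ = C * (R ^ (1 / 4 : ℝ) * R ^ (-(1 / 4) : ℝ)) := by ring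
      _ = C := by rw [h2, mul_one]
  have hsC : |s| ≤ C := by
    refine hs.trans ?_
    have h1 : R ^ (-η) ≤ 1 := Real.rpow_le_one_of_one_le_of_nonpos hR (by linarith)
    nlinarith
  obtain ⟨v, σ, Y, hv, hσ, hY, hdec⟩ := LAT_near C δ (Real.exp (Real.log R / 4) * x) hC hδ hX k hk
  obtain ⟨t1, ht1⟩ : ∃ t1, t1 = Real.log R / 4 := ⟨_, rfl⟩
  rw [← ht1] at hX hdec ⊢
  refine ⟨u + Real.exp (-(t - t1 + s)) * v, aM (s + σ) * nM Y * kM θ, ⟨s + σ, Y, θ, ?_, ?_, ?_, rfl⟩, ?_, ?_⟩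
  · refine (abs_add_le _ _).trans ?_
    linarith
  · linarith
  · rcases hθ with h | h
    · rw [h]
      exact ⟨le_refl _, Real.pi_pos.le⟩
    · rw [h]
      exact ⟨Real.pi_pos.le, le_refl _⟩
  · refine (abs_add_le _ _).trans ?_
    refine add_le_add hu ?_
    rw [abs_mul, abs_of_pos (Real.exp_pos _)]
    have h1 : Real.exp (-(t - t1 + s)) ≤ Real.exp C * Real.exp (-(t - t1)) := by
      rw [← Real.exp_add]
      refine Real.exp_le_exp.2 ?_
      have := (abs_le.1 hsC).1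
      linarith
    have h2 : 0 ≤ Real.exp C * Real.exp (-(t - t1)) := by positivity
    calc Real.exp (-(t - t1 + s)) * |v| ≤ (Real.exp C * Real.exp (-(t - t1))) * 1 :=
          mul_le_mul h1 hv (abs_nonneg _) h2
      _ = _ := mul_one _
  · have e1 : nM x * aM (-t1) = aM (-t1) * nM (Real.exp t1 * x) := by
      have := hna x (-t1)
      rw [neg_neg] at this
      exact this
    have e2 : aM (t - t1 + s) * lM v = lM (Real.exp (-(t - t1 + s)) * v) * aM (t - t1 + s) := by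
      have h1 := hla (Real.exp (-(t - t1 + s)) * v) (t - t1 + s)
      rw [h1]
      congr 2
      rw [← mul_assoc, ← Real.exp_add, add_neg_cancel, Real.exp_zero, one_mul]
    have e3 : aM (t + s) * aM (-t1) = aM (t - t1 + s) := by
      rw [← haa]
      congr 1
      ring
    have e4 : aM (t - t1 + s) * aM σ = aM (t - t1) * aM (s + σ) := by
      rw [← haa, ← haa]
      congr 1
      ring
    calc lM u * aM (t + s) * nM x * kM θ * aM (-t1) * k
        = lM u * aM (t + s) * nM x * (kM θ * (aM (-t1) * k)) := by simp only [mul_assoc]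
      _ = lM u * aM (t + s) * nM x * ((aM (-t1) * k) * kM θ) := by rw [LAT_ctr θ hθ]
      _ = lM u * aM (t + s) * (nM x * aM (-t1)) * k * kM θ := by simp only [mul_assoc]
      _ = lM u * (aM (t + s) * aM (-t1)) * (nM (Real.exp t1 * x) * k) * kM θ := by rw [e1]; simp only [mul_assoc]
      _ = lM u * (aM (t - t1 + s) * lM v) * aM σ * nM Y * kM θ := by rw [e3, hdec]; simp only [mul_assoc]
      _ = (lM u * lM (Real.exp (-(t - t1 + s)) * v)) * (aM (t - t1 + s) * aM σ) * nM Y * kM θ := by rw [e2]; simp only [mul_assoc]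
      _ = lM (u + Real.exp (-(t - t1 + s)) * v) * aM (t - t1) * (aM (s + σ) * nM Y * kM θ) := by rw [← hls, e4]; simp only [mul_assoc]

theorem LAT_proof : LAT_stmt := by
  intro Γ C η ε hΓ hC hη _ hε _
  obtain ⟨ε0, hε0, hXDS⟩ := EN.A_XDS Γ hΓ
  have hlc : LocallyCompactSpace SL(2, ℝ) := A_GLC.1
  have hsc : SecondCountableTopology SL(2, ℝ) := A_GLC.2.1
  have hcpt := A_GLC.2.2.1
  have hinv : mG.IsMulLeftInvariant := ⟨fun g => A_GLI g⟩
  obtain ⟨hdG, hKfin, hsf, -, -⟩ := A_GMG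
  have hvo : (volume : Measure ℍ).IsOpenPosMeasure := QU.A_INV.2.2.1
  have hop : mG.IsOpenPosMeasure := by
    refine isOpenPosMeasure_of_mulLeftInvariant_of_compact (dG (Metric.closedBall I 1))
      (hcpt _ (isCompact_closedBall I 1)) ?_
    rw [(hdG _ Metric.isClosed_closedBall.measurableSet).2]
    exact (Metric.measure_closedBall_pos volume I one_pos).ne'
  -- the small ball
  obtain ⟨ε1, hε1, hε1a, hε1b⟩ : ∃ ε1 : ℝ, 0 < ε1 ∧ ε1 ≤ 1 ∧ ε1 ≤ ε0 := ⟨min 1 ε0, lt_min one_pos hε0, min_le_left _ _, min_le_right _ _⟩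
  obtain ⟨δ, hδ⟩ : ∃ δ : ℝ, δ = min (ε1 / 4) (1 / (4 * (1 + C))) := ⟨_, rfl⟩
  have hC4 : 0 < 4 * (1 + C) := by linarith
  have hδ0 : 0 < δ := by
    rw [hδ]
    exact lt_min (by linarith) (by positivity)
  have hδ1 : δ ≤ ε1 / 4 := by
    rw [hδ]
    exact min_le_left _ _
  have hδ2 : δ * (4 * (1 + C)) ≤ 1 := by
    have h1 : δ ≤ 1 / (4 * (1 + C)) := by
      rw [hδ]
      exact min_le_right _ _
    exact (le_div_iff₀ hC4).1 h1
  obtain ⟨B, hB⟩ : ∃ B : Set SL(2, ℝ), B = {k | EN.nr δ k} := ⟨_, rfl⟩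
  have hBo : IsOpen B := by
    rw [hB]
    exact EN.XNB_open δ
  have hB1 : (1 : SL(2, ℝ)) ∈ B := by
    rw [hB]
    intro i j
    simpa using hδ0
  have hBpos : 0 < mG B := hBo.measure_pos mG ⟨1, hB1⟩
  have hBK : B ⊆ LAT_K (2 * C + 1) := by
    intro k hk
    rw [hB] at hk
    obtain ⟨v, σ, Y, hv, hσ, hY, hdec⟩ := LAT_near C δ 0 hC hδ2 (by rw [abs_zero]; linarith) k hk
    have hn0 : nM 0 = (1 : SL(2, ℝ)) := by
      refine LAT_ent 1 0 0 1 _ ?_ ?_ ?_ ?_ _ ?_ ?_ ?_ ?_ <;> simp [nM]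
    have hk0 : kM 0 = (1 : SL(2, ℝ)) := by
      refine LAT_ent 1 0 0 1 _ ?_ ?_ ?_ ?_ _ ?_ ?_ ?_ ?_ <;> simp [kM]
    rw [hn0, one_mul] at hdec
    refine ⟨v, aM σ * nM Y * kM 0, ⟨σ, Y, 0, by linarith, by linarith, ⟨le_refl _, Real.pi_pos.le⟩, rfl⟩, hv, ?_⟩
    rw [hdec, hk0, mul_one, mul_assoc]
  have hKf : mG (LAT_K (2 * C + 1)) < ⊤ := hKfin _ (LAT_cpt _)
  have hBf : mG B < ⊤ := lt_of_le_of_lt (measure_mono hBK) hKf
  have hb : 0 < (mG B).toReal := ENNReal.toReal_pos hBpos.ne' hBf.ne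
  obtain ⟨b, hbd⟩ : ∃ b, b = (mG B).toReal := ⟨_, rfl⟩
  obtain ⟨K, hKd⟩ : ∃ K, K = (mG (LAT_K (2 * C + 1))).toReal := ⟨_, rfl⟩
  have hK0 : 0 ≤ K := by
    rw [hKd]
    exact ENNReal.toReal_nonneg
  rw [← hbd] at hb
  refine ⟨K / b * (C + Real.exp C + 2) + 1, 1, by positivity, le_refl _, ?_⟩
  intro R t g h hR ht
  have hRp : 0 < R := by linarith
  obtain ⟨t1, ht1⟩ : ∃ t1, t1 = Real.log R / 4 := ⟨_, rfl⟩
  obtain ⟨E, hE⟩ : ∃ E, E = Real.exp t * R ^ (-1 + ε) := ⟨_, rfl⟩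
  have hE1 : 1 ≤ E := by
    have h1 : R ^ (9 / 8 : ℝ) ≤ Real.exp t := by
      rw [Real.rpow_def_of_pos hRp]
      refine Real.exp_le_exp.2 ?_
      linarith
    have h2 : R ^ (9 / 8 : ℝ) * R ^ (-1 + ε) = R ^ (1 / 8 + ε) := by
      rw [← Real.rpow_add hRp]
      congr 1
      ring
    have h3 : 1 ≤ R ^ (1 / 8 + ε) := Real.one_le_rpow hR (by linarith)
    rw [hE]
    calc (1 : ℝ) ≤ R ^ (9 / 8 : ℝ) * R ^ (-1 + ε) := by rw [h2]; exact h3
      _ ≤ Real.exp t * R ^ (-1 + ε) := mul_le_mul_of_nonneg_right h1 (Real.rpow_nonneg hRp.le _)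
  have hexp : Real.exp (t - t1) * R ^ (-(3 / 4) + ε) = E := by
    have h1 : Real.exp (-t1) = R ^ (-(1 / 4) : ℝ) := by
      rw [Real.rpow_def_of_pos hRp, ht1]
      congr 1
      ring
    rw [hE, sub_eq_add_neg, Real.exp_add, h1, mul_assoc, ← Real.rpow_add hRp]
    congr 2
    ring
  have hcount : ∀ S : Finset Γ, (∀ γ ∈ S, g⁻¹ * ((γ : SL(2, ℝ)) * h) ∈ SN C η ε R t) →
      (S.card : ℝ) ≤ (K / b * (C + Real.exp C + 2) + 1) * Real.exp t * R ^ (-1 + ε) := by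
    intro S hS
    obtain ⟨U, hU⟩ : ∃ U, U = C * R ^ (-(3 / 4) + ε) + Real.exp C * Real.exp (-(t - t1)) := ⟨_, rfl⟩
    have hU0 : 0 ≤ U := by
      rw [hU]
      have := Real.rpow_nonneg hRp.le (-(3 / 4) + ε)
      positivity
    obtain ⟨D, hD⟩ : ∃ D : Γ → Set SL(2, ℝ), D = fun γ : Γ => (fun q : SL(2, ℝ) => ((γ : SL(2, ℝ)) * h * aM (-t1))⁻¹ * q) ⁻¹' B := ⟨_, rfl⟩
    have hDm : ∀ γ : Γ, mG (D γ) = mG B := by
      intro γ
      rw [hD]
      exact measure_preimage_mul mG _ B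
    have hDmeas : ∀ γ : Γ, MeasurableSet (D γ) := by
      intro γ
      rw [hD]
      exact (hBo.preimage (continuous_const.mul continuous_id)).measurableSet
    have hdisj : (S : Set Γ).PairwiseDisjoint D := by
      intro γ _ γ' _ hne
      rw [Function.onFun, Set.disjoint_left]
      intro q hq hq'
      refine hne ?_
      rw [hD, hB] at hq hq'
      have h1 : EN.nr (ε1 / 4) (((γ : SL(2, ℝ)) * h * aM (-t1))⁻¹ * q)⁻¹ := by
        intro i j
        exact lt_of_lt_of_le (LAT_nrinv δ _ hq i j) hδ1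
      have h2 : EN.nr (ε1 / 4) (((γ' : SL(2, ℝ)) * h * aM (-t1))⁻¹ * q)⁻¹ := by
        intro i j
        exact lt_of_lt_of_le (LAT_nrinv δ _ hq' i j) hδ1
      have h3 := EN.XCY_nr hε1 hε1a h1 h2
      have h4 : ((((γ : SL(2, ℝ)) * h * aM (-t1))⁻¹ * q)⁻¹)⁻¹ * (((γ' : SL(2, ℝ)) * h * aM (-t1))⁻¹ * q)⁻¹ =
          (h * aM (-t1))⁻¹ * ((γ⁻¹ * γ' : Γ) : SL(2, ℝ)) * (h * aM (-t1)) := by
        rw [Subgroup.coe_mul, Subgroup.coe_inv]
        group
      rw [h4] at h3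
      have h5 : γ⁻¹ * γ' = 1 := hXDS (h * aM (-t1)) (γ⁻¹ * γ') fun i j => lt_of_lt_of_le (h3 i j) hε1b
      exact inv_mul_eq_one.1 h5
    have hsub : (⋃ γ ∈ S, D γ) ⊆ (fun q : SL(2, ℝ) => g⁻¹ * q) ⁻¹' (LAT_T (2 * C + 1) (t - t1) U) := by
      intro q hq
      obtain ⟨γ, hγ, hqγ⟩ := mem_iUnion₂.1 hq
      rw [hD, hB] at hqγ
      have h1 := LAT_in C η ε R t hC hη hR δ hδ2 (g⁻¹ * ((γ : SL(2, ℝ)) * h)) (((γ : SL(2, ℝ)) * h * aM (-t1))⁻¹ * q) hqγ (hS γ hγ)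
      rw [← ht1, ← hU] at h1
      have h2 : g⁻¹ * ((γ : SL(2, ℝ)) * h) * aM (-t1) * (((γ : SL(2, ℝ)) * h * aM (-t1))⁻¹ * q) = g⁻¹ * q := by group
      rw [h2] at h1
      exact h1
    have hm1 : (S.card : ENNReal) * mG B ≤ ENNReal.ofReal (Real.exp (t - t1) * U + 2) * mG (LAT_K (2 * C + 1)) := by
      calc (S.card : ENNReal) * mG B = ∑ γ ∈ S, mG (D γ) := by
            rw [Finset.sum_congr rfl fun γ _ => hDm γ, Finset.sum_const, nsmul_eq_mul]
        _ = mG (⋃ γ ∈ S, D γ) := (measure_biUnion_finset hdisj fun γ _ => hDmeas γ).symm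
        _ ≤ mG ((fun q : SL(2, ℝ) => g⁻¹ * q) ⁻¹' (LAT_T (2 * C + 1) (t - t1) U)) := measure_mono hsub
        _ = mG (LAT_T (2 * C + 1) (t - t1) U) := measure_preimage_mul mG _ _
        _ ≤ _ := LAT_vol _ _ _ hU0
    have hm2 := ENNReal.toReal_mono (ENNReal.mul_ne_top ENNReal.ofReal_ne_top hKf.ne) hm1
    rw [ENNReal.toReal_mul, ENNReal.toReal_mul, ENNReal.toReal_natCast, ← hbd, ← hKd,
      ENNReal.toReal_ofReal (by positivity)] at hm2
    have hU2 : Real.exp (t - t1) * U = C * E + Real.exp C := by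
      have h1 : Real.exp (t - t1) * Real.exp (-(t - t1)) = 1 := by rw [← Real.exp_add, add_neg_cancel, Real.exp_zero]
      rw [hU, ← hexp]
      linear_combination Real.exp C * h1
    rw [hU2] at hm2
    have h6 : (S.card : ℝ) ≤ (C * E + Real.exp C + 2) * K / b := by
      rw [le_div_iff₀ hb]
      exact hm2
    have h7 : C * E + Real.exp C + 2 ≤ (C + Real.exp C + 2) * E := by
      have h8 : 0 ≤ (Real.exp C + 2) * (E - 1) := mul_nonneg (by positivity) (by linarith)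
      nlinarith
    have hKb : 0 ≤ K / b := by positivity
    calc (S.card : ℝ) ≤ (C * E + Real.exp C + 2) * K / b := h6
      _ = (K / b) * (C * E + Real.exp C + 2) := by ring
      _ ≤ (K / b) * ((C + Real.exp C + 2) * E) := mul_le_mul_of_nonneg_left h7 hKb
      _ ≤ (K / b) * ((C + Real.exp C + 2) * E) + E := by linarith
      _ = (K / b * (C + Real.exp C + 2) + 1) * Real.exp t * R ^ (-1 + ε) := by rw [hE]; ring
  have hfin : {γ : Γ | g⁻¹ * ((γ : SL(2, ℝ)) * h) ∈ SN C η ε R t}.Finite := by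
    by_contra hinf
    obtain ⟨n, hn⟩ := exists_nat_gt ((K / b * (C + Real.exp C + 2) + 1) * Real.exp t * R ^ (-1 + ε))
    obtain ⟨S, hS1, hS2⟩ := Set.Infinite.exists_subset_card_eq hinf n
    have h1 := hcount S fun γ hγ => hS1 hγ
    rw [hS2] at h1
    linarith
  refine ⟨hfin, ?_⟩
  rw [Set.ncard_eq_toFinset_card _ hfin]
  exact hcount hfin.toFinset fun γ hγ => hfin.mem_toFinset.1 hγ

end Pool.Agent.RPQ
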