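import Pool.Agent.helper11.RPQ.SpecI
import Pool.Agent.helper89.RPQ.UOP

/-! # Project RPI, row UOL: the operator on `L²(Γ \ G)`, Lipschitz potentials (adaptation of UOP) -/

set_option autoImplicit false

open scoped MatrixGroups ContDiff Topology UpperHalfPlane ComplexConjugate
open UpperHalfPlane MeasureTheory Filter Set

namespace Pool.Agent.RPQ

open Pool.Agent.RS
open Pool.Agent.MS (BA BB st pf gk Dk amk)

noncomputable section

theorem UOL_proof (hUCT : UCT_stmt) (hUFL : UFL_stmt) (hUKB : UKB_stmt) (hGRW : GRW_stmt) (hKPG : KPG_stmt)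
    (hKPS : KPS_stmt) (hKO1 : KO1_stmt) (hKO2 : KO2_stmt) (hKO3 : KO3_stmt) (hGKD : GKD_stmt) (hCWB : CWB_stmt)
    (hF1 : F1_stmt) : UOL_stmt := by
  classical
  intro Γ F α β η ε hΓ hF hα hβ hη hη1 hε hε1
  obtain ⟨C1, R1, hC1, hR1, hU⟩ := hUKB α β hα hβ η ε hη hη1 hε hε1
  refine ⟨C1, hC1, fun C C0 hC hC0 => ?_⟩
  obtain ⟨δ2, R2, hδ2, hR2, hT2⟩ := hUCT Γ F α β η hΓ hF hα hβ hη hη1
  obtain ⟨δ3, R3, hδ3, hR3, hT3⟩ := hUFL Γ F α β C0 η hΓ hF hα hβ hC0 hη hη1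
  obtain ⟨R4, hR4, hT4⟩ := hF1 α β hα hβ
  obtain ⟨Cg, hCg, hG⟩ := hGRW Γ hΓ
  obtain ⟨D0, hD0, hD⟩ := UOP_D0 hKPS Γ F hΓ hF
  obtain ⟨hGFD1, hGFD2⟩ := A_GFD Γ F hΓ hF
  have hfin : IsFiniteMeasure (mG.restrict (dG F)) := by
    refine ⟨?_⟩
    rw [Measure.restrict_apply_univ]
    exact hGFD1.2.2.1
  obtain ⟨m, hm⟩ : ∃ m : ℝ, m = (mG.restrict (dG F)).real univ := ⟨_, rfl⟩
  have hm0 : 0 ≤ m := by rw [hm]; exact measureReal_nonneg
  obtain ⟨M, hM⟩ : ∃ M : ℝ, M = Cg * Real.exp D0 * m := ⟨_, rfl⟩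
  have hM0 : 0 ≤ M := by rw [hM]; positivity
  -- the exponent
  obtain ⟨δ, hδd⟩ : ∃ δ : ℝ, δ = min (min δ2 δ3) 1 / 4 := ⟨_, rfl⟩
  have hδ : 0 < δ := by
    rw [hδd]
    have : 0 < min (min δ2 δ3) 1 := lt_min (lt_min hδ2 hδ3) one_pos
    linarith
  have hδ2' : 4 * δ ≤ δ2 := by
    rw [hδd]
    have := (min_le_left (min δ2 δ3) 1).trans (min_le_left _ _)
    linarith
  have hδ3' : 4 * δ ≤ δ3 := by
    rw [hδd]
    have := (min_le_left (min δ2 δ3) 1).trans (min_le_right _ _)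
    linarith
  have hδ1 : 4 * δ ≤ 1 := by
    rw [hδd]
    have := min_le_right (min δ2 δ3) 1
    linarith
  refine ⟨δ, max (max (max R1 R2) (max R3 R4)) (max (M ^ 2) ((3 : ℝ) ^ (1 / δ))), hδ, ?_, ?_⟩
  · exact hR1.trans (((le_max_left _ _).trans (le_max_left _ _)).trans (le_max_left _ _))
  intro R ϵ t μ V φ hR hQ T hT
  have r1 : R1 ≤ R := (((le_max_left _ _).trans (le_max_left _ _)).trans (le_max_left _ _)).trans hR
  have r2 : R2 ≤ R := (((le_max_right _ _).trans (le_max_left _ _)).trans (le_max_left _ _)).trans hR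
  have r3 : R3 ≤ R := (((le_max_left _ _).trans (le_max_right _ _)).trans (le_max_left _ _)).trans hR
  have r4 : R4 ≤ R := (((le_max_right _ _).trans (le_max_right _ _)).trans (le_max_left _ _)).trans hR
  have r5 : M ^ 2 ≤ R := ((le_max_left _ _).trans (le_max_right _ _)).trans hR
  have r6 : (3 : ℝ) ^ (1 / δ) ≤ R := ((le_max_right _ _).trans (le_max_right _ _)).trans hR
  have hR1' : 1 ≤ R := hR1.trans r1
  have hR0 : 0 < R := by linarith
  have h3δ : 3 ≤ R ^ δ := by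
    have h1 := Real.rpow_le_rpow (by positivity) r6 hδ.le
    rw [← Real.rpow_mul (by norm_num), one_div, inv_mul_cancel₀ hδ.ne', Real.rpow_one] at h1
    exact h1
  have hbig : 3 * R ^ (-(2 * δ)) ≤ R ^ (-δ) := by
    have h1 : R ^ (-δ) = R ^ δ * R ^ (-(2 * δ)) := by
      rw [← Real.rpow_add hR0]
      congr 1
      ring
    rw [h1]
    exact mul_le_mul_of_nonneg_right h3δ (by positivity)
  -- widths
  have hw0 : 0 < w0 R := Real.rpow_pos_of_pos hR0 _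
  have hw0' : w0 R ≤ 1 := Real.rpow_le_one_of_one_le_of_nonpos hR1' (by norm_num)
  have hw1 : 0 < w1 R := Real.rpow_pos_of_pos hR0 _
  have hw1' : w1 R ≤ 1 := Real.rpow_le_one_of_one_le_of_nonpos hR1' (by norm_num)
  have hw10 : w1 R ≤ w0 R := UOP_pow_le hR1' (by norm_num)
  have hl0 : 0 < R ^ (-η) := Real.rpow_pos_of_pos hR0 _
  have hl1 : R ^ (-η) ≤ 1 := Real.rpow_le_one_of_one_le_of_nonpos hR1' (by linarith)
  have hl8 : R ^ (-(1 / 8) : ℝ) ≤ R ^ (-η) := UOP_pow_le hR1' (by linarith)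
  have hc0 := hCWB α β (w0 R) (R ^ (-η)) hα hβ hw0 hw0' hl0 hl1
  have hc1 := hCWB α β (w1 R) (R ^ (-η)) hα hβ hw1 hw1' hl0 hl1
  have htb0 : TB (1 / 4) (cw β α (w0 R) (R ^ (-η))) := hc0.2.2.2.2.2.2.1
  have htb1 : TB (1 / 4) (cw β α (w1 R) (R ^ (-η))) := hc1.2.2.2.2.2.2.1
  -- the functions uk, ut
  have hU' := hU C R hC r1
  have hukm : Measurable (uk β α η R) := by
    have h1 := (hGKD R _ _ htb1 htb0).1
    exact (continuous_const.mul h1).measurable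
  have hutm : Measurable (ut β α C η ε R) := hukm.indicator (UOP_Bx C η ε R)
  have hutb : ∀ b, ‖ut β α C η ε R b‖ ≤ C * R ^ (15 / 16 + η) := fun b => (hU' b).2.1
  have hukb : ∀ b, ‖uk β α η R b‖ ≤ C * R ^ (15 / 16 + η) + R ^ (-2 : ℝ) := by
    intro b
    have h1 := norm_add_le (ut β α C η ε R b) (uk β α η R b - ut β α C η ε R b)
    rw [add_sub_cancel] at h1
    exact h1.trans (add_le_add (hU' b).2.1 (hU' b).1)
  have huks : ∀ b, uk β α η R b ≠ 0 → ∀ i j, |b.1 i j| ≤ 3 := fun b => (hU' b).2.2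
  have huts : ∀ b, ut β α C η ε R b ≠ 0 → ∀ i j, |b.1 i j| ≤ 3 := by
    intro b hb
    by_contra hn
    apply hb
    unfold ut
    refine Set.indicator_of_notMem (fun hmem => hn hmem.1) _
  obtain ⟨K', hK'⟩ : ∃ K' : ℝ, K' = R * ϵ / 2 := ⟨_, rfl⟩
  rw [← hK'] at hT
  have hGk := (hKPS Γ F V K' (tau R) (uk β α η R) univ hΓ hF hQ.inv hukm ⟨_, hukb⟩ ⟨3, huks⟩ MeasurableSet.univ
    (fun _ _ => ⟨fun _ => mem_univ _, fun _ => mem_univ _⟩)).1
  have hGt := (hKPS Γ F V K' (tau R) (ut β α C η ε R) univ hΓ hF hQ.inv hutm ⟨_, hutb⟩ ⟨3, huts⟩ MeasurableSet.univ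
    (fun _ _ => ⟨fun _ => mem_univ _, fun _ => mem_univ _⟩)).1
  obtain ⟨hkm, hkb, hki, hku⟩ := (hKPG Γ F hΓ hF).1 _ hGk
  obtain ⟨htm, htb, -, -⟩ := (hKPG Γ F hΓ hF).1 _ hGt
  obtain ⟨⟨S, hS⟩, -⟩ := hKO1 _ (mG.restrict (dG F)) _ hkm hkb
  -- the difference
  have hdiff : ∀ g h : SL(2, ℝ), ‖perK Γ (stK V K' (tau R) (ut β α C η ε R)) g h - perK Γ (stK V K' (tau R) (uk β α η R)) g h‖ ≤
      Cg * Real.exp D0 * R ^ (-(15 / 8) : ℝ) := by
    intro g h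
    obtain ⟨hf, hn⟩ := hG (D0 + tau R) (g • I) (h • I) (add_nonneg hD0 (UOP_tau hR1'))
    have hzero : ∀ (u : SL(2, ℝ) → ℂ), (∀ b, u b ≠ 0 → ∀ i j, |b.1 i j| ≤ 3) → ∀ γ : Γ,
        γ ∉ {γ : Γ | dist (g • I : ℍ) ((γ : SL(2, ℝ)) • (h • I : ℍ)) ≤ D0 + tau R} →
          stK V K' (tau R) u g ((γ : SL(2, ℝ)) * h) = 0 := by
      intro u hu γ hγ
      by_contra hne
      apply hγ
      show dist (g • I : ℍ) ((γ : SL(2, ℝ)) • (h • I : ℍ)) ≤ D0 + tau R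
      have h1 : u ((g * aM (tau R))⁻¹ * ((γ : SL(2, ℝ)) * h)) ≠ 0 := by
        intro h0
        apply hne
        unfold stK
        rw [h0, mul_zero]
      have h2 := hD _ (hu _ h1)
      have h3 : dist ((((g * aM (tau R))⁻¹ * ((γ : SL(2, ℝ)) * h))) • I : ℍ) I =
          dist ((γ : SL(2, ℝ)) • (h • I : ℍ)) ((g * aM (tau R)) • I : ℍ) := by
        rw [← dist_smul (g * aM (tau R)) _ (I : ℍ), ← mul_smul, mul_inv_cancel_left, mul_smul]
      rw [h3] at h2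
      have h4 : dist ((g * aM (tau R)) • I : ℍ) (g • I : ℍ) = tau R := by
        rw [mul_smul, dist_smul, EGE_I A_GLC, abs_of_nonneg (UOP_tau hR1')]
      calc dist (g • I : ℍ) ((γ : SL(2, ℝ)) • (h • I : ℍ)) =
            dist ((γ : SL(2, ℝ)) • (h • I : ℍ)) (g • I : ℍ) := dist_comm _ _
        _ ≤ dist ((γ : SL(2, ℝ)) • (h • I : ℍ)) ((g * aM (tau R)) • I : ℍ) +
            dist ((g * aM (tau R)) • I : ℍ) (g • I : ℍ) := dist_triangle _ _ _
        _ ≤ D0 + tau R := by rw [h4]; linarith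
    have h5 := UOP_per Γ (stK V K' (tau R) (ut β α C η ε R)) (stK V K' (tau R) (uk β α η R)) g h _ hf (R ^ (-2 : ℝ))
      (fun γ hγ => ⟨hzero _ huts γ hγ, hzero _ huks γ hγ⟩) (fun γ => by
        unfold stK
        rw [← mul_sub, norm_mul, Complex.norm_exp_ofReal_mul_I, one_mul, norm_sub_rev]
        exact (hU' _).1)
    refine h5.trans ((mul_le_mul_of_nonneg_right hn (by positivity)).trans (le_of_eq ?_))
    rw [Real.exp_add, UOP_exp_tau hR1']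
    have e1 : R ^ (1 / 8 : ℝ) * R ^ (-2 : ℝ) = R ^ (-(15 / 8) : ℝ) := by
      rw [← Real.rpow_add hR0]
      congr 1
      norm_num
    rw [← e1]
    ring
  have hTS : ‖T - S‖ ≤ R ^ (-1 : ℝ) := by
    have h1 := (hKO2 _ (mG.restrict (dG F))).2.1 _ _ T S htm htb hkm hkb hT hS
    have h2 := UOP_small hKO1 (mG.restrict (dG F))
      (fun g h => perK Γ (stK V K' (tau R) (ut β α C η ε R)) g h - perK Γ (stK V K' (tau R) (uk β α η R)) g h)
      (htm.sub hkm) (Cg * Real.exp D0 * R ^ (-(15 / 8) : ℝ))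
      (by positivity) hdiff (T - S) h1
    rw [← hm] at h2
    refine h2.trans ?_
    have e1 : Cg * Real.exp D0 * R ^ (-(15 / 8) : ℝ) * m = M * R ^ (-(15 / 8) : ℝ) := by
      rw [hM]
      ring
    rw [e1]
    have e2 : R ^ (-1 : ℝ) = R ^ (7 / 8 : ℝ) * R ^ (-(15 / 8) : ℝ) := by
      rw [← Real.rpow_add hR0]
      congr 1
      norm_num
    rw [e2]
    refine mul_le_mul_of_nonneg_right ?_ (by positivity)
    have h3 : M ≤ R ^ (1 / 2 : ℝ) := by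
      rw [← Real.sqrt_eq_rpow]
      exact Real.le_sqrt_of_sq_le r5
    exact h3.trans (UOP_pow_le hR1' (by norm_num))
  have hR2δ : R ^ (-1 : ℝ) ≤ R ^ (-(2 * δ)) := UOP_pow_le hR1' (by linarith)
  -- the norm of S
  have hSn : ‖S‖ ≤ 1 + R ^ (-δ2) := by
    refine hKO3 _ (mG.restrict (dG F)) _ S (1 + R ^ (-δ2)) (by positivity) hkm hkb hS ?_
    rintro v hv ⟨B, hB⟩
    obtain ⟨v', hv'm, hv'b, hv'i, hv'e⟩ := UOP_ext Γ F hΓ hF v hv B hB
    have h1 := hT2 R K' V v' r2 hQ.inv hv'm ⟨B, hv'b⟩ hv'i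
    have h2 : ∀ y, ∫ z, perK Γ (stK V K' (tau R) (uk β α η R)) y z * v z ∂(mG.restrict (dG F)) =
        ∫ h, stK V K' (tau R) (uk β α η R) y h * v' h ∂mG := by
      intro y
      rw [← hku v' hv'm ⟨B, hv'b⟩ hv'i y]
      refine setIntegral_congr_fun hGFD1.1 fun z hz => ?_
      show _ * v z = _ * v' z
      rw [hv'e z hz]
    have h3 : ∫ y, ‖v y‖ ^ 2 ∂(mG.restrict (dG F)) = iR F (fun g => ‖v' g‖ ^ 2) := by
      refine setIntegral_congr_fun hGFD1.1 fun z hz => ?_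
      show ‖v z‖ ^ 2 = ‖v' z‖ ^ 2
      rw [hv'e z hz]
    rw [h3]
    simp only [h2]
    exact h1
  constructor
  · have h1 : ‖T‖ ≤ ‖T - S‖ + ‖S‖ := by
      have h2 := norm_add_le (T - S) S
      rw [sub_add_cancel] at h2
      exact h2
    have h2 : R ^ (-δ2) ≤ R ^ (-(2 * δ)) := UOP_pow_le hR1' (by linarith)
    have h3 : 0 ≤ R ^ (-(2 * δ)) := by positivity
    linarith
  · intro Φ hΦ hφ1
    obtain ⟨Q, hQd⟩ : ∃ Q : SL(2, ℝ) → ℂ, Q = fun g => QQ β α (w0 R) (R ^ (-η)) R φ g := ⟨_, rfl⟩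
    have hΦ' : (Φ : SL(2, ℝ) → ℂ) =ᵐ[mG.restrict (dG F)] fun g => ((Real.sqrt R : ℝ) : ℂ) * Q g := by
      rw [hQd]
      exact hΦ
    have hsq : Real.sqrt R ^ 2 = R := Real.sq_sqrt hR0.le
    -- Q is continuous, bounded and invariant
    have hφc : InvC Γ φ := ⟨ETD_cont hQ.eig.1, hQ.eig.2.1⟩
    have htst := A_FL0.2.1 (1 / 4) R _ htb0
    have hQinv : InvG Γ Q := by
      rw [hQd]
      exact A_FL0.2.2 Γ _ φ (ETD_cont htst.1) htst.2 hφc
    obtain ⟨B, hB⟩ := (A_GBD Γ ℂ Q hΓ hQinv).1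
    have hKQ : ∀ y, ∫ z, perK Γ (stK V K' (tau R) (uk β α η R)) y z * Φ z ∂(mG.restrict (dG F)) =
        ((Real.sqrt R : ℝ) : ℂ) * ∫ h, stK V K' (tau R) (uk β α η R) y h * Q h ∂mG := by
      intro y
      rw [← hku Q hQinv.1.measurable ⟨B, hB⟩ hQinv.2 y, ← integral_const_mul]
      refine integral_congr_ae ?_
      filter_upwards [hΦ'] with z hz
      rw [hz]
      ring
    have h3 := hT3 R ϵ t μ V φ r3 hQ
    rw [← hK'] at h3
    have hSΦ : ‖S Φ - Φ‖ ^ 2 ≤ R ^ (-δ3) := by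
      rw [UOP_norm]
      have e1 : ∫ y, ‖(S Φ - Φ : Lp ℂ 2 (mG.restrict (dG F))) y‖ ^ 2 ∂(mG.restrict (dG F)) =
          ∫ y, R * ‖(∫ h, stK V K' (tau R) (uk β α η R) y h * Q h ∂mG) - Q y‖ ^ 2 ∂(mG.restrict (dG F)) := by
        refine integral_congr_ae ?_
        filter_upwards [Lp.coeFn_sub (S Φ) Φ, hS Φ, hΦ'] with y h4 h5 h6
        rw [h4, Pi.sub_apply, h5, h6, hKQ y, ← mul_sub, norm_mul, mul_pow, Complex.norm_real, Real.norm_eq_abs, sq_abs, hsq]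
      rw [e1, integral_const_mul]
      have h7 : R * iR F (fun g => ‖(∫ h, stK V K' (tau R) (uk β α η R) g h * Q h ∂mG) - Q g‖ ^ 2) ≤
          R ^ (-δ3) * nn F φ := by
        rw [hQd]
        exact h3
      refine h7.trans ?_
      have h8 : 0 ≤ R ^ (-δ3) := by positivity
      nlinarith
    have hSΦ' : ‖S Φ - Φ‖ ≤ R ^ (-(2 * δ)) := by
      refine abs_le_of_sq_le_sq' ?_ (by positivity) |>.2
      refine hSΦ.trans ?_
      rw [← Real.rpow_natCast, ← Real.rpow_mul hR0.le]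
      refine UOP_pow_le hR1' ?_
      push_cast
      linarith
    have hΦn : ‖Φ‖ ≤ 2 := by
      have h4 := hT4 Γ F R (w0 R) (R ^ (-η)) hΓ hF r4 hw10 le_rfl hl8 hl1 φ hφc
      have h5 : ‖Φ‖ ^ 2 = R * qn F (cw β α (w0 R) (R ^ (-η))) R φ := by
        rw [UOP_norm]
        have e1 : ∫ y, ‖Φ y‖ ^ 2 ∂(mG.restrict (dG F)) = ∫ y, R * ‖Q y‖ ^ 2 ∂(mG.restrict (dG F)) := by
          refine integral_congr_ae ?_
          filter_upwards [hΦ'] with y h6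
          rw [h6, norm_mul, mul_pow, Complex.norm_real, Real.norm_eq_abs, sq_abs, hsq]
        rw [e1, integral_const_mul, hQd]
        rfl
      have h6 : R ^ (-(1 / 40) : ℝ) ≤ 1 := Real.rpow_le_one_of_one_le_of_nonpos hR1' (by norm_num)
      have h7 : 0 ≤ R ^ (-(1 / 40) : ℝ) := by positivity
      have h8 : ‖Φ‖ ^ 2 ≤ 2 := by
        rw [h5]
        refine h4.trans ?_
        nlinarith
      nlinarith [norm_nonneg Φ]
    have h9 : T Φ - Φ = (T - S) Φ + (S Φ - Φ) := by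
      rw [ContinuousLinearMap.sub_apply]
      abel
    rw [h9]
    have h10 : ‖(T - S) Φ‖ ≤ R ^ (-1 : ℝ) * 2 :=
      ((T - S).le_opNorm Φ).trans (mul_le_mul hTS hΦn (norm_nonneg _) (by positivity))
    have h11 := norm_add_le ((T - S) Φ) (S Φ - Φ)
    linarith

end

end Pool.Agent.RPQ
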